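import Pool.Agent.H41.AUG.GStmts

set_option autoImplicit false

/-! # AUG3-RED: `S_RED` from `S_HALLD` and `S_AUG2` -/

namespace Pool.Agent.H874.AUG

open Pool.Agent.H41.AUG
open Pool.Agent.H41.CP (nb dg)

theorem ainv {n : ℕ} (e : Equiv.Perm (Fin n)) (x : Fin n) : e (e⁻¹ x) = x :=
  e.apply_symm_apply x

/-- cells avoiding a family of permutations -/
def av {n : ℕ} {V : Type} (N : Finset V) (τ : V → Equiv.Perm (Fin n)) : Finset (Cell n) :=
  Finset.univ.filter fun p => ∀ z ∈ N, p.2 ≠ τ z p.1

theorem mem_av {n : ℕ} {V : Type} (N : Finset V) (τ : V → Equiv.Perm (Fin n)) (p : Cell n) :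
    p ∈ av N τ ↔ ∀ z ∈ N, p.2 ≠ τ z p.1 := by
  unfold av
  rw [Finset.mem_filter]
  exact ⟨fun h => h.2, fun h => ⟨Finset.mem_univ _, h⟩⟩

theorem row_av {n : ℕ} {V : Type} (N : Finset V) (τ : V → Equiv.Perm (Fin n)) :
    RowGe (av N τ) (n - N.card) := by
  classical
  intro s
  have h1 : ((Finset.univ \ N.image fun z => τ z s).image fun c => (s, c)) ⊆
      (av N τ).filter fun p => p.1 = s := by
    intro p hp
    rw [Finset.mem_image] at hp
    obtain ⟨c, hc, rfl⟩ := hp
    rw [Finset.mem_sdiff, Finset.mem_image] at hc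
    rw [Finset.mem_filter, mem_av]
    exact ⟨fun z hz h => hc.2 ⟨z, hz, h.symm⟩, rfl⟩
  refine le_trans ?_ (Finset.card_le_card h1)
  rw [Finset.card_image_of_injective _ (fun a b h => (Prod.mk.inj h).2),
    Finset.card_sdiff_of_subset (Finset.subset_univ _), Finset.card_univ, Fintype.card_fin]
  exact Nat.sub_le_sub_left Finset.card_image_le n

theorem col_av {n : ℕ} {V : Type} (N : Finset V) (τ : V → Equiv.Perm (Fin n)) :
    ColGe (av N τ) (n - N.card) := by
  classical
  intro c
  have h1 : ((Finset.univ \ N.image fun z => (τ z).symm c).image fun s => (s, c)) ⊆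
      (av N τ).filter fun p => p.2 = c := by
    intro p hp
    rw [Finset.mem_image] at hp
    obtain ⟨s, hs, rfl⟩ := hp
    rw [Finset.mem_sdiff, Finset.mem_image] at hs
    rw [Finset.mem_filter, mem_av]
    refine ⟨fun z hz h => hs.2 ⟨z, hz, ?_⟩, rfl⟩
    rw [Equiv.symm_apply_eq]
    exact h
  refine le_trans ?_ (Finset.card_le_card h1)
  rw [Finset.card_image_of_injective _ (fun a b h => (Prod.mk.inj h).1),
    Finset.card_sdiff_of_subset (Finset.subset_univ _), Finset.card_univ, Fintype.card_fin]
  exact Nat.sub_le_sub_left Finset.card_image_le n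

section

variable {n : ℕ} {V : Type} [DecidableEq V] (G : SimpleGraph V) [DecidableRel G.Adj]
    (σ : V → V → Equiv.Perm (Fin n))

/-- the permutations seen from `w` -/
def ff (W : Finset V) (w : V) (φ : V → Equiv.Perm (Fin n)) :
    {u // u ∈ nb G W w} → Equiv.Perm (Fin n) := fun u => σ u.1 w * φ u.1

omit [DecidableEq V] in
theorem mem_nb (W : Finset V) (v u : V) : u ∈ nb G W v ↔ u ∈ W ∧ G.Adj v u := by
  unfold nb
  rw [Finset.mem_filter]

theorem nb_card (W : Finset V) (w u : V) (hw : w ∈ W) (h : G.Adj w u) :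
    (nb G (W.erase w) u).card + 1 = dg G W u := by
  have h1 : nb G (W.erase w) u = (nb G W u).erase w := by
    ext z
    rw [mem_nb, Finset.mem_erase, Finset.mem_erase, mem_nb]
    tauto
  have h2 : w ∈ nb G W u := by
    rw [mem_nb]
    exact ⟨hw, h.symm⟩
  rw [h1, Finset.card_erase_add_one h2]
  rfl

/-- the last vertex -/
theorem ext_packs (hσ : ∀ u v, G.Adj u v → σ v u = (σ u v)⁻¹) (W : Finset V) (w : V)
    (φ : V → Equiv.Perm (Fin n)) (hφ : Packs G σ (W.erase w) φ) (g : Equiv.Perm (Fin n))
    (hg : gr g ⊆ unc (ff G σ W w φ)) : Packs G σ W (Function.update φ w g) := by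
  have key : ∀ v ∈ W, G.Adj w v → ∀ i, g i ≠ σ v w (φ v i) := by
    intro v hv hwv i h
    have h1 : (i, g i) ∈ gr g := by
      unfold gr
      rw [Finset.mem_image]
      exact ⟨i, Finset.mem_univ _, rfl⟩
    have h2 := hg h1
    unfold unc at h2
    rw [Finset.mem_filter] at h2
    exact h2.2 ⟨v, (mem_nb G W w v).2 ⟨hv, hwv⟩⟩ h.symm
  intro u hu v hv huv i
  by_cases h1 : u = w
  · subst h1
    have hvu : v ≠ u := huv.ne'
    rw [Function.update_of_ne hvu, Function.update_self]
    intro h
    apply key v hv huv i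
    rw [hσ v u huv.symm] at h
    rw [h]
    exact (ainv _ _).symm
  · by_cases h2 : v = w
    · subst h2
      rw [Function.update_self, Function.update_of_ne h1]
      exact key u hu huv.symm i
    · rw [Function.update_of_ne h1, Function.update_of_ne h2]
      exact hφ u (Finset.mem_erase.2 ⟨h1, hu⟩) v (Finset.mem_erase.2 ⟨h2, hv⟩) huv i

/-- changing one neighbour -/
theorem upd_packs (hσ : ∀ u v, G.Adj u v → σ v u = (σ u v)⁻¹) (W : Finset V) (w : V)
    (φ : V → Equiv.Perm (Fin n)) (hφ : Packs G σ (W.erase w) φ) (u : V)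
    (g : Equiv.Perm (Fin n))
    (hg : gr g ⊆ av (nb G (W.erase w) u) (fun z => σ u w * (σ z u * φ z))) :
    Packs G σ (W.erase w) (Function.update φ u ((σ u w)⁻¹ * g)) := by
  have key : ∀ z ∈ W.erase w, G.Adj u z → ∀ i, g i ≠ σ u w (σ z u (φ z i)) := by
    intro z hz huz i h
    have h1 : (i, g i) ∈ gr g := by
      unfold gr
      rw [Finset.mem_image]
      exact ⟨i, Finset.mem_univ _, rfl⟩
    have h2 := hg h1
    rw [mem_av] at h2
    exact h2 z ((mem_nb G _ u z).2 ⟨hz, huz⟩) h
  intro a ha b hb hab i
  by_cases h1 : a = u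
  · subst h1
    have hba : b ≠ a := hab.ne'
    rw [Function.update_of_ne hba, Function.update_self]
    intro h
    apply key b hb hab i
    rw [hσ b a hab.symm] at h
    rw [h, Equiv.Perm.mul_apply, ainv, ainv]
  · by_cases h2 : b = u
    · subst h2
      rw [Function.update_self, Function.update_of_ne h1]
      intro h
      apply key a ha hab.symm i
      rw [← h, Equiv.Perm.mul_apply, ainv]
    · rw [Function.update_of_ne h1, Function.update_of_ne h2]
      exact hφ a ha b hb hab i

theorem ff_update (W : Finset V) (w : V) (φ : V → Equiv.Perm (Fin n))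
    (u : {u // u ∈ nb G W w}) (g : Equiv.Perm (Fin n)) :
    ff G σ W w (Function.update φ u.1 ((σ u.1 w)⁻¹ * g)) =
      Function.update (ff G σ W w φ) u g := by
  funext v
  by_cases h : v = u
  · subst h
    rw [Function.update_self]
    unfold ff
    rw [Function.update_self, mul_inv_cancel_left]
  · rw [Function.update_of_ne h]
    unfold ff
    rw [Function.update_of_ne (fun h' => h (Subtype.ext h'))]

end

theorem red (hh : S_HALLD) (haug : S_AUG2) : S_RED := by
  intro n V _ G _ σ hσ W w hw hx1 hx2 hsum
  have main : ∀ m : ℕ, ∀ φ : V → Equiv.Perm (Fin n), Packs G σ (W.erase w) φ →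
      DefLe (unc (ff G σ W w φ)) m → ∃ ψ, Packs G σ W ψ := by
    intro m
    induction m with
    | zero =>
      intro φ hφ hd
      obtain ⟨g, hg⟩ := (hh n 0 (unc (ff G σ W w φ))).2.2 hd
      exact ⟨_, ext_packs G σ hσ W w φ hφ g hg⟩
    | succ m ih =>
      intro φ hφ hd
      by_cases hdm : DefLe (unc (ff G σ W w φ)) m
      · exact ih φ hφ hdm
      have htight : ∃ Z, Tight (unc (ff G σ W w φ)) (m + 1) Z := by
        unfold DefLe at hdm
        push Not at hdm
        obtain ⟨Z, hZ⟩ := hdm
        refine ⟨Z, ?_⟩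
        have := hd Z
        unfold Tight
        omega
      have hA : ∀ u : {u // u ∈ nb G W w},
          n + 1 - dg G W u.1 = n - (nb G (W.erase w) u.1).card := by
        intro u
        have h1 := nb_card G W w u.1 hw ((mem_nb G W w u.1).1 u.2).2
        omega
      obtain ⟨u, g, hg, hdef⟩ := haug n m (dg G W w) {u // u ∈ nb G W w} (ff G σ W w φ)
        (fun u => av (nb G (W.erase w) u.1) (fun z => σ u.1 w * (σ z u.1 * φ z)))
        (fun u => dg G W u.1) (Fintype.card_coe _) hx1 hx2
        (by
          intro u p hp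
          unfold gr at hp
          rw [Finset.mem_image] at hp
          obtain ⟨i, -, rfl⟩ := hp
          rw [mem_av]
          intro z hz h
          rw [mem_nb] at hz
          obtain ⟨hz1, hz2⟩ := hz
          have hu1 : u.1 ∈ W.erase w := by
            rw [Finset.mem_erase]
            have h1 := (mem_nb G W w u.1).1 u.2
            exact ⟨h1.2.ne', h1.1⟩
          apply hφ z hz1 u.1 hu1 hz2.symm i
          exact (σ u.1 w).injective h)
        (by
          intro u
          rw [hA u]
          exact row_av _ _)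
        (by
          intro u
          rw [hA u]
          exact col_av _ _)
        (by
          intro u
          have h1 := nb_card G W w u.1 hw ((mem_nb G W w u.1).1 u.2).2
          omega)
        hd htight
        (by
          rw [Finset.sum_coe_sort (nb G W w) (fun u => min (dg G W w) (2 * dg G W u - n))]
          exact hsum)
      refine ih _ (upd_packs G σ hσ W w φ hφ u.1 g hg) ?_
      rw [ff_update]
      exact hdef
  intro φ hφ
  refine main n φ hφ ?_
  intro Z
  have h1 : Z.card ≤ n := by
    have := Finset.card_le_univ Z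
    rwa [Fintype.card_fin] at this
  omega

end Pool.Agent.H874.AUG
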